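import Mathlib
import Pool.Agent.T9h24.Ft.Spec

/-!
# Two filtrations of a vector space have a common adapted basis
-/

set_option autoImplicit false

open Module

namespace Pool.Agent.T9h96.Ft

theorem stTwo_aux (K : Type) [Field K] : ∀ (N : ℕ) (V : Type) [AddCommGroup V] [Module K V]
    [FiniteDimensional K V], finrank K V = N → ∀ F G : ℕ → Submodule K V,
    Antitone F → Antitone G → ∃ b : Module.Basis (Fin N) K V,
      (∀ e, F e = Submodule.span K (b '' {a | b a ∈ F e})) ∧
      ∀ e, G e = Submodule.span K (b '' {a | b a ∈ G e}) := by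
  classical
  intro N
  induction N with
  | zero =>
    intro V _ _ _ hN F G hF hG
    have hs : Subsingleton V := finrank_zero_iff.1 hN
    refine ⟨Module.Basis.ofEquivFun (LinearEquiv.ofSubsingleton V (Fin 0 → K)), fun e => ?_,
      fun e => ?_⟩ <;>
    · exact Subsingleton.elim _ _
  | succ N ih =>
    intro V _ _ _ hN F G hF hG
    -- the hyperplane
    obtain ⟨f, hf0, hFf⟩ : ∃ f : V →ₗ[K] K, f ≠ 0 ∧ ∀ e, F e = ⊤ ∨ F e ≤ LinearMap.ker f := by
      by_cases hex : ∃ e, F e ≠ ⊤
      · have h1 := Nat.find_spec hex
        obtain ⟨f, hf0, hf⟩ := Submodule.exists_le_ker_of_lt_top (F (Nat.find hex))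
          (lt_top_iff_ne_top.2 h1)
        refine ⟨f, hf0, fun e => ?_⟩
        by_cases he : F e = ⊤
        · exact Or.inl he
        · exact Or.inr ((hF (Nat.find_min' hex he)).trans hf)
      · push Not at hex
        have hbt : (⊥ : Submodule K V) < ⊤ := by
          rw [bot_lt_iff_ne_bot]
          intro h
          have h2 : finrank K (⊤ : Submodule K V) = 0 := by rw [h]; exact finrank_bot K V
          rw [finrank_top, hN] at h2
          omega
        obtain ⟨f, hf0, _⟩ := Submodule.exists_le_ker_of_lt_top (⊥ : Submodule K V) hbt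
        exact ⟨f, hf0, fun e => Or.inl (hex e)⟩
    set H := LinearMap.ker f with hH
    have hHf : finrank K H = N := by
      have h1 : finrank K (LinearMap.range f) + finrank K H = finrank K V :=
        LinearMap.finrank_range_add_finrank_ker f
      have h2 : LinearMap.range f = ⊤ := LinearMap.range_eq_top.2 (LinearMap.surjective hf0)
      rw [h2, finrank_top, finrank_self, hN] at h1
      omega
    -- the vector
    obtain ⟨v, hv, hvG⟩ : ∃ v : V, f v ≠ 0 ∧ ∀ e, G e ≤ H ∨ v ∈ G e := by
      by_cases hex : ∃ e, ¬ G e ≤ H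
      · obtain ⟨M, ⟨e1, rfl, he1⟩, hmin⟩ := IsArtinian.set_has_minimal
          {U : Submodule K V | ∃ e, G e = U ∧ ¬ U ≤ H} (by
            obtain ⟨e, he⟩ := hex
            exact ⟨G e, e, rfl, he⟩)
        obtain ⟨v, hv1, hv2⟩ := Set.not_subset.1 he1
        refine ⟨v, fun h => hv2 (LinearMap.mem_ker.2 h), fun e => ?_⟩
        by_cases he : G e ≤ H
        · exact Or.inl he
        · refine Or.inr ?_
          rcases le_total e e1 with h | h
          · exact hG h hv1
          · have h3 := hG h
            rcases lt_or_eq_of_le h3 with h4 | h4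
            · exact absurd h4 (hmin (G e) ⟨e, rfl, he⟩)
            · rw [h4]; exact hv1
      · push Not at hex
        obtain ⟨v, hv⟩ : ∃ v, f v ≠ 0 := by
          by_contra hn
          push Not at hn
          exact hf0 (LinearMap.ext hn)
        exact ⟨v, hv, fun e => Or.inl (hex e)⟩
    have hFv : ∀ e, F e ≤ H ∨ v ∈ F e := fun e => by
      rcases hFf e with h | h
      · exact Or.inr (by rw [h]; exact Submodule.mem_top)
      · exact Or.inl h
    -- the basis of the hyperplane
    obtain ⟨b', hb1, hb2⟩ := ih H hHf (fun e => (F e).comap H.subtype)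
      (fun e => (G e).comap H.subtype) (fun _ _ h => Submodule.comap_mono (hF h))
      (fun _ _ h => Submodule.comap_mono (hG h))
    have hli : ∀ (c : K), ∀ x ∈ H, c • v + x = 0 → c = 0 := by
      intro c x hx h
      have h1 : f (c • v + x) = 0 := by rw [h, map_zero]
      rw [map_add, map_smul, LinearMap.mem_ker.1 hx, add_zero, smul_eq_mul] at h1
      exact (mul_eq_zero.1 h1).resolve_right hv
    have hsp : ∀ z : V, ∃ c : K, z + c • v ∈ H := by
      intro z
      refine ⟨-(f z / f v), LinearMap.mem_ker.2 ?_⟩
      rw [map_add, map_smul, smul_eq_mul, neg_mul, div_mul_cancel₀ _ hv, add_neg_cancel]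
    set b := Module.Basis.mkFinCons v b' hli hsp with hb
    have hbv : b 0 = v := by rw [hb, Module.Basis.coe_mkFinCons, Fin.cons_zero]
    have hbs : ∀ a : Fin N, b a.succ = (b' a : V) := fun a => by
      rw [hb, Module.Basis.coe_mkFinCons, Fin.cons_succ]; rfl
    have key : ∀ U : Submodule K V, (U ≤ H ∨ v ∈ U) →
        U.comap H.subtype = Submodule.span K (b' '' {a | b' a ∈ U.comap H.subtype}) →
        U = Submodule.span K (b '' {a | b a ∈ U}) := by
      intro U hU hc
      apply le_antisymm
      · have h1 : ∀ w ∈ U, w ∈ H → w ∈ Submodule.span K (b '' {a | b a ∈ U}) := by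
          intro w hw hwH
          have h2 : (⟨w, hwH⟩ : H) ∈ U.comap H.subtype := hw
          rw [hc] at h2
          have h3 := Submodule.mem_map_of_mem (f := H.subtype) h2
          rw [Submodule.map_span] at h3
          refine Submodule.span_mono ?_ h3
          rintro _ ⟨_, ⟨a, ha, rfl⟩, rfl⟩
          exact ⟨a.succ, by rw [Set.mem_ofPred_eq, hbs]; exact ha, hbs a⟩
        intro u hu
        rcases hU with hU | hU
        · exact h1 u hu (hU hu)
        · obtain ⟨c, hc'⟩ := hsp u
          have h2 := h1 _ (U.add_mem hu (U.smul_mem c hU)) hc'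
          have h3 : v ∈ Submodule.span K (b '' {a | b a ∈ U}) :=
            Submodule.subset_span ⟨0, by rw [Set.mem_ofPred_eq, hbv]; exact hU, hbv⟩
          have h4 := Submodule.sub_mem _ h2 (Submodule.smul_mem _ c h3)
          rwa [add_sub_cancel_right] at h4
      · rw [Submodule.span_le]
        rintro _ ⟨a, ha, rfl⟩
        exact ha
    exact ⟨b, fun e => key _ (hFv e) (hb1 e), fun e => key _ (hvG e) (hb2 e)⟩

theorem stTwo : Pool.Agent.T9h24.Ft.StTwo := by
  intro K V _ _ _ _ N hN F G hF hG
  exact stTwo_aux K N V hN F G hF hG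

end Pool.Agent.T9h96.Ft
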